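import Pool.Agent.W206.YP.Stm
import Pool.Agent.W206.CT.CO

/-!
Project YP, part SB: from the pointwise form to the key lemma.
-/

set_option autoImplicit false

namespace Pool.Agent.W724.YP.SB

open MvPolynomial UpperHalfPlane H294ZP Pool.Agent.W206.CT Pool.Agent.W206.YP

section expansion

variable {σ ρ : Type}

/-- the generic expansion -/
noncomputable def th (k0 : IntermediateField Qb ℂ) (J : Finset σ) (a : ρ → k0) :
    MvPolynomial (J ⊕ (ρ ⊕ ρ)) Qb →ₐ[Qb] MvPolynomial ρ (MvPolynomial σ k0) :=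
  aeval (Sum.elim (fun j => C (X (j : σ))) (Sum.elim X (fun i => X i + C (C (a i)))))

theorem w_iff {k0 K : IntermediateField Qb ℂ} (hle : k0 ≤ K) (J : Finset σ) (a : ρ → k0)
    (x : σ → ℂ) (hx : ∀ i, x i ∈ K) (lam : ρ → ℂ) (hlam : AlgebraicIndependent K lam)
    (g : MvPolynomial (J ⊕ (ρ ⊕ ρ)) Qb) :
    aeval (wt x J lam (fun i => (a i : ℂ))) g = 0 ↔ ∀ α, aeval x (coeff α (th k0 J a g)) = 0 := by
  let θ : MvPolynomial σ k0 →+* K :=
    eval₂Hom (IntermediateField.inclusion hle).toRingHom (fun i => ⟨x i, hx i⟩)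
  have hθ : ∀ c, ((θ c : K) : ℂ) = aeval x c := by
    intro c
    have : (algebraMap K ℂ).comp θ = (aeval x : MvPolynomial σ k0 →ₐ[k0] ℂ).toRingHom := by
      apply MvPolynomial.ringHom_ext
      · intro r
        show algebraMap K ℂ (eval₂Hom _ _ (C r)) = aeval x (C r)
        rw [eval₂Hom_C, aeval_C]
        rfl
      · intro i
        show algebraMap K ℂ (eval₂Hom _ _ (X i)) = aeval x (X i)
        rw [eval₂Hom_X', aeval_X]
        rfl
    exact RingHom.congr_fun this c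
  let Ψ : MvPolynomial ρ (MvPolynomial σ k0) →+* ℂ :=
    (aeval lam : MvPolynomial ρ K →ₐ[K] ℂ).toRingHom.comp (MvPolynomial.map θ)
  have hΨ : ∀ p, Ψ p = aeval lam (MvPolynomial.map θ p) := fun p => rfl
  have key : (aeval (wt x J lam (fun i => (a i : ℂ))) :
      MvPolynomial (J ⊕ (ρ ⊕ ρ)) Qb →ₐ[Qb] ℂ).toRingHom = Ψ.comp (th k0 J a).toRingHom := by
    apply MvPolynomial.ringHom_ext
    · intro r
      show aeval _ (C r) = Ψ (th k0 J a (C r))
      rw [aeval_C]
      have h1 : th k0 J a (C r) = C (C (algebraMap Qb k0 r)) := by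
        unfold th
        rw [aeval_C]
        rfl
      rw [h1, hΨ, map_C, aeval_C]
      show _ = ((θ (C _) : K) : ℂ)
      rw [hθ, aeval_C]
      rfl
    · rintro (j | i | i)
      · show aeval _ (X (Sum.inl j)) = Ψ (aeval _ (X (Sum.inl j)))
        rw [aeval_X, aeval_X, hΨ]
        show x j = aeval lam (MvPolynomial.map θ (C (X (j : σ))))
        rw [map_C, aeval_C]
        show _ = ((θ (X _) : K) : ℂ)
        rw [hθ, aeval_X]
      · show aeval _ (X (Sum.inr (Sum.inl i))) = Ψ (aeval _ (X (Sum.inr (Sum.inl i))))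
        rw [aeval_X, aeval_X, hΨ]
        show lam i = aeval lam (MvPolynomial.map θ (X i))
        rw [map_X, aeval_X]
      · show aeval _ (X (Sum.inr (Sum.inr i))) = Ψ (aeval _ (X (Sum.inr (Sum.inr i))))
        rw [aeval_X, aeval_X, hΨ]
        show lam i + (a i : ℂ) = aeval lam (MvPolynomial.map θ (X i + C (C (a i))))
        rw [map_add, map_add, map_X, map_C, aeval_X, aeval_C]
        congr 1
        show _ = ((θ (C _) : K) : ℂ)
        rw [hθ, aeval_C]
        rfl
  have h1 : aeval (wt x J lam (fun i => (a i : ℂ))) g = Ψ (th k0 J a g) :=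
    RingHom.congr_fun key g
  rw [h1, hΨ]
  constructor
  · intro h2 α
    have h3 := (algebraicIndependent_iff.1 hlam) _ h2
    have h4 := congrArg (coeff α) h3
    rw [coeff_map, coeff_zero] at h4
    rw [← hθ, h4]
    rfl
  · intro h2
    have h3 : MvPolynomial.map θ (th k0 J a g) = 0 := by
      ext α
      rw [coeff_map, coeff_zero]
      have := h2 α
      rw [← hθ] at this
      exact_mod_cast this
    rw [h3, map_zero]

end expansion

/-! ### generic points -/

section generic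

variable {σ : Type}

/-- `x` is generic for `R` over `k` -/
def Gen (k : IntermediateField Qb ℂ) (R : Ideal (MvPolynomial σ ℂ)) (x : σ → ℂ) : Prop :=
  ∀ f : MvPolynomial σ k, aeval x f = 0 ↔ MvPolynomial.map (algebraMap k ℂ) f ∈ R

theorem gen_le {k0 k1 : IntermediateField Qb ℂ} (h : k0 ≤ k1) {R : Ideal (MvPolynomial σ ℂ)}
    {x : σ → ℂ} (hx : Gen k1 R x) : Gen k0 R x := by
  intro f
  have h1 := hx (MvPolynomial.map (IntermediateField.inclusion h).toRingHom f)
  rw [MvPolynomial.map_map] at h1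
  have e1 : (algebraMap k1 ℂ).comp (IntermediateField.inclusion h).toRingHom = algebraMap k0 ℂ := rfl
  rw [e1] at h1
  rw [← h1, aeval_def, aeval_def, eval₂_map, e1]

theorem gen_c {k : IntermediateField Qb ℂ} {R : Ideal (MvPolynomial σ ℂ)}
    {x : σ → ℂ} (hx : Gen k R x) (t : σ) (c : Qb) :
    x t = algebraMap Qb ℂ c ↔ (X t - C (c : ℂ) : MvPolynomial σ ℂ) ∈ R := by
  have h1 := hx (X t - C (algebraMap Qb k c))
  rw [map_sub, map_sub, aeval_X, aeval_C, map_X, map_C, sub_eq_zero] at h1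
  exact h1

theorem gen_F {k : IntermediateField Qb ℂ} {R : Ideal (MvPolynomial σ ℂ)}
    {x : σ → ℂ} (hx : Gen k R x) (t u : σ) (F : MvPolynomial (Fin 2) Qb) :
    aeval ![x t, x u] F = 0 ↔ (aeval ![(X t : MvPolynomial σ ℂ), X u] F : MvPolynomial σ ℂ) ∈ R := by
  have h1 := hx (aeval ![(X t : MvPolynomial σ k), X u] F)
  have e1 : aeval x (aeval ![(X t : MvPolynomial σ k), X u] F : MvPolynomial σ k) =
      aeval ![x t, x u] F := by
    have : (aeval ![x t, x u] : MvPolynomial (Fin 2) Qb →ₐ[Qb] ℂ) =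
        ((aeval x : MvPolynomial σ k →ₐ[k] ℂ).restrictScalars Qb).comp
          (aeval ![(X t : MvPolynomial σ k), X u]) := by
      apply MvPolynomial.algHom_ext
      intro i
      fin_cases i <;> simp
    rw [this]
    rfl
  have e2 : MvPolynomial.map (algebraMap k ℂ) (aeval ![(X t : MvPolynomial σ k), X u] F) =
      (aeval ![(X t : MvPolynomial σ ℂ), X u] F : MvPolynomial σ ℂ) := by
    have : (aeval ![(X t : MvPolynomial σ ℂ), X u] : MvPolynomial (Fin 2) Qb →ₐ[Qb] _) =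
        ((MvPolynomial.mapAlgHom (IsScalarTower.toAlgHom Qb k ℂ)) :
          MvPolynomial σ k →ₐ[Qb] MvPolynomial σ ℂ).comp
          (aeval ![(X t : MvPolynomial σ k), X u]) := by
      apply MvPolynomial.algHom_ext
      intro i
      fin_cases i <;> simp
    rw [this]
    rfl
  rw [e1, e2] at h1
  exact h1

theorem gen_rel {k : IntermediateField Qb ℂ} {R : Ideal (MvPolynomial σ ℂ)}
    {x : σ → ℂ} (hx : Gen k R x) (T : Finset σ) : RelT x T ↔ RelI R T := by
  unfold RelT RelI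
  constructor
  · intro h t ht
    rcases h t ht with ⟨c, h1, h2⟩ | ⟨u, hu, F, h1, h2⟩
    · exact Or.inl ⟨c, h1, (gen_c hx t c).1 h2⟩
    · exact Or.inr ⟨u, hu, F, h1, (gen_F hx t u F).1 h2⟩
  · intro h t ht
    rcases h t ht with ⟨c, h1, h2⟩ | ⟨u, hu, F, h1, h2⟩
    · exact Or.inl ⟨c, h1, (gen_c hx t c).2 h2⟩
    · exact Or.inr ⟨u, hu, F, h1, (gen_F hx t u F).2 h2⟩

theorem relI_mono {R Q : Ideal (MvPolynomial σ ℂ)} (h : R ≤ Q) {T : Finset σ} (hT : RelI R T) :
    RelI Q T := by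
  intro t ht
  rcases hT t ht with ⟨c, h1, h2⟩ | ⟨u, hu, F, h1, h2⟩
  · exact Or.inl ⟨c, h1, h h2⟩
  · exact Or.inr ⟨u, hu, F, h1, h h2⟩

theorem dimGe_mono {P : Ideal (MvPolynomial σ ℂ)} {a b : ℕ} (h : a ≤ b) (hb : DimGe P b) :
    DimGe P a := by
  obtain ⟨y, hy⟩ := hb
  exact ⟨fun i => y (Fin.castLE h i), hy.comp _ (Fin.castLE_injective h)⟩

end generic

/-! ### algebraicity -/

theorem halg (hCMA : S_CMA) (hALG : S_ALG) {σ : Type} (x : σ → ℂ) (J : Finset σ)
    (h : ∀ i, i ∉ J → CMv (x i) ∨ ∃ j ∈ J, Iso (x i) (x j)) (i : σ) :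
    IsAlgebraic (IntermediateField.adjoin Qb (x '' (J : Set σ))) (x i) := by
  by_cases hi : i ∈ J
  · exact isAlgebraic_algebraMap
      (⟨x i, IntermediateField.subset_adjoin _ _ ⟨i, hi, rfl⟩⟩ :
        IntermediateField.adjoin Qb (x '' (J : Set σ)))
  · rcases h i hi with h1 | ⟨j, hj, h1⟩
    · obtain ⟨c, hc⟩ := hCMA.1 _ h1
      rw [← hc]
      exact isAlgebraic_algebraMap
        (algebraMap Qb (IntermediateField.adjoin Qb (x '' (J : Set σ))) c)
    · exact hALG _ _ _ h1 (IntermediateField.subset_adjoin _ _ ⟨j, hj, rfl⟩)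

/-! ### transcendence degree over a smaller field -/

theorem trge_le {k0 k1 : IntermediateField Qb ℂ} (h : k0 ≤ k1) {σ : Type} [Fintype σ]
    (x : σ → ℂ) (m : ℕ) (hm : TrGe k1 x m) : TrGe k0 x m := by
  obtain ⟨I, hI1, -, hI3⟩ := t_co k1 ℂ σ x
  have hle := (hI3 m).1 hm
  let : Algebra k0 k1 := (IntermediateField.inclusion h).toRingHom.toAlgebra
  have : IsScalarTower k0 k1 ℂ := IsScalarTower.of_algebraMap_eq' rfl
  have hI0 : AlgebraicIndependent k0 (fun i : I => x i) :=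
    hI1.restrictScalars (IntermediateField.inclusion h).toRingHom.injective
  refine ⟨fun i => x (I.equivFin.symm (Fin.castLE hle i)), ?_, fun i => ?_⟩
  · exact hI0.comp (fun i : Fin m => I.equivFin.symm (Fin.castLE hle i))
      (I.equivFin.symm.injective.comp (Fin.castLE_injective hle))
  · exact IntermediateField.subset_adjoin _ _ ⟨_, rfl⟩

/-! ### the tuple is not CM and not isogenous -/

section tuple

variable {ρ : Type} {K : Type} [Field K]

open Classical in
theorem coeff_pol (i i' : ρ) (b : K) :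
    coeff (Finsupp.single i 1) (X i' + C b : MvPolynomial ρ K) = if i' = i then 1 else 0 := by
  rw [coeff_add, coeff_X, coeff_C]
  have h1 : (0 : ρ →₀ ℕ) ≠ Finsupp.single i 1 := by
    intro h
    have := DFunLike.congr_fun h i
    simp at this
  rw [if_neg h1, add_zero]
  congr 1
  apply propext
  constructor
  · intro h
    by_contra hne
    have := DFunLike.congr_fun h i'
    simp [Finsupp.single_apply, Ne.symm hne] at this
  · rintro rfl
    rfl

theorem coeff_pol0 (i' : ρ) (b : K) : coeff 0 (X i' + C b : MvPolynomial ρ K) = b := by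
  classical
  simp [coeff_X]

theorem pol_nonconst (i : ρ) (b : K) : (X i + C b : MvPolynomial ρ K) ∉ Set.range
    (C : K → MvPolynomial ρ K) := by
  classical
  rintro ⟨z, hz⟩
  have h1 := congrArg (coeff (Finsupp.single i 1)) hz
  rw [coeff_pol, if_pos rfl, coeff_C] at h1
  have h2 : (0 : ρ →₀ ℕ) ≠ Finsupp.single i 1 := by
    intro h
    have := DFunLike.congr_fun h i
    simp at this
  rw [if_neg h2] at h1
  exact zero_ne_one h1

theorem pol_inj {i i' : ρ} {b b' : K} (h : (X i + C b : MvPolynomial ρ K) = X i' + C b') :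
    i = i' ∧ b = b' := by
  have h1 := congrArg (coeff (Finsupp.single i 1)) h
  rw [coeff_pol, coeff_pol, if_pos rfl] at h1
  have h2 := congrArg (coeff 0) h
  rw [coeff_pol0, coeff_pol0] at h2
  refine ⟨?_, h2⟩
  by_contra hne
  rw [if_neg (Ne.symm hne)] at h1
  exact one_ne_zero h1

end tuple

theorem main : Pool.Agent.W206.YP.S_SB := by
  classical
  intro hDEF hGEN hTA hSPX hIND hNI hEQV hPN hCMA hALG hPW σ _ P R hR hPR hRA
  obtain ⟨hX1, hX2⟩ := hSPX hEQV hPN hCMA
  obtain ⟨n, a, ha0, haDef⟩ := hDEF σ R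
  set k0 : IntermediateField Qb ℂ := IntermediateField.adjoin Qb (Set.range a) with hk0
  have hk0c : (k0 : Set ℂ).Countable := hIND.1 _ (Set.countable_range a)
  have hak0 : ∀ i, a i ∈ k0 := fun i => IntermediateField.subset_adjoin _ _ ⟨i, rfl⟩
  obtain ⟨x, hx, hxd⟩ := hGEN σ R hR k0 hk0c (haDef k0 hak0)
  have hxG : Gen k0 R x := hx
  obtain ⟨⟨J, hJ1, hJ2, hJ3, TJ, hTJ, hTJr⟩, -⟩ := hX2 σ x
  have hcardJ : TJ.card + J.card = Fintype.card σ := by
    have : TJ = Jᶜ := by
      ext i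
      rw [hTJ i, Finset.mem_compl]
    rw [this, Finset.card_compl]
    have := Finset.card_le_univ J
    omega
  -- the tuple
  set Kx : IntermediateField Qb ℂ := IntermediateField.adjoin Qb (Set.range x ∪ Set.range a)
    with hKx
  have hKxc : (Kx : Set ℂ).Countable := hIND.1 _ ((Set.countable_range x).union
    (Set.countable_range a))
  obtain ⟨lam, hlam⟩ := hIND.2 Kx hKxc (Fin n)
  have hxKx : ∀ i, x i ∈ Kx := fun i => IntermediateField.subset_adjoin _ _ (Or.inl ⟨i, rfl⟩)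
  have haKx : ∀ i, a i ∈ Kx := fun i => IntermediateField.subset_adjoin _ _ (Or.inr ⟨i, rfl⟩)
  have hk0Kx : k0 ≤ Kx := by
    rw [hk0, IntermediateField.adjoin_le_iff]
    rintro _ ⟨i, rfl⟩
    exact haKx i
  have hlamT : ∀ (i : Fin n) (z : Kx), lam i ≠ (z : ℂ) := by
    intro i z h
    exact hlam.transcendental i (by rw [h]; exact isAlgebraic_algebraMap z)
  set w : (J ⊕ (Fin n ⊕ Fin n)) → ℂ := wt x J lam a with hw
  have hwCM : ∀ i, ¬ CMv (w i) := by
    rintro (j | i | i) h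
    · exact hJ1 j j.2 h
    · obtain ⟨c, hc⟩ := hCMA.1 _ h
      exact hlamT i (algebraMap Qb Kx c) hc.symm
    · obtain ⟨c, hc⟩ := hCMA.1 _ h
      refine hlamT i (algebraMap Qb Kx c - ⟨a i, haKx i⟩) ?_
      have hc' : (c : ℂ) = lam i + a i := hc
      have : ((algebraMap Qb Kx c - ⟨a i, haKx i⟩ : Kx) : ℂ) = (c : ℂ) - a i := rfl
      rw [this, hc']
      ring
  have hwIso : ∀ i j, i ≠ j → ¬ Iso (w i) (w j) := by
    -- polynomials
    let pol : (J ⊕ (Fin n ⊕ Fin n)) → MvPolynomial (Fin n) Kx := Sum.elim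
      (fun j => C ⟨x j, hxKx j⟩) (Sum.elim (fun i => X i + C 0) (fun i => X i + C ⟨a i, haKx i⟩))
    have hpol : ∀ u, aeval lam (pol u) = w u := by
      rintro (j | i | i)
      · show aeval lam (C _) = x j
        rw [aeval_C]
        rfl
      · show aeval lam (X i + C 0) = lam i
        rw [map_add, aeval_X, aeval_C, map_zero, add_zero]
      · show aeval lam (X i + C _) = lam i + a i
        rw [map_add, aeval_X, aeval_C]
        rfl
    have hgen : ∀ u v, pol u ≠ pol v → (pol u ∉ Set.range (C : Kx → MvPolynomial (Fin n) Kx) ∨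
        pol v ∉ Set.range (C : Kx → MvPolynomial (Fin n) Kx)) → ¬ Iso (w u) (w v) := by
      intro u v h1 h2
      rw [← hpol u, ← hpol v]
      exact hNI Kx (Fin n) lam hlam (pol u) (pol v) h1 h2
    have hc : ∀ j : J, pol (Sum.inl j) ∈ Set.range (C : Kx → MvPolynomial (Fin n) Kx) :=
      fun j => ⟨_, rfl⟩
    have hn : ∀ s, pol (Sum.inr s) ∉ Set.range (C : Kx → MvPolynomial (Fin n) Kx) := by
      rintro (i | i)
      · exact pol_nonconst i 0
      · exact pol_nonconst i _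
    have ha0' : ∀ i, (⟨a i, haKx i⟩ : Kx) ≠ 0 := fun i h => ha0 i (congrArg Subtype.val h)
    rintro (j | s) (j' | s') hne
    · intro h
      refine hJ2 j j.2 j' j'.2 ?_ h
      intro h'
      exact hne (congrArg Sum.inl (Subtype.ext h'))
    · refine hgen _ _ ?_ (Or.inr (hn s'))
      intro h
      exact hn s' (h ▸ hc j)
    · refine hgen _ _ ?_ (Or.inl (hn s))
      intro h
      exact hn s (h ▸ hc j')
    · refine hgen _ _ ?_ (Or.inl (hn s))
      intro h
      apply hne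
      rcases s with i | i <;> rcases s' with i' | i'
      · rw [(pol_inj h).1]
      · obtain ⟨h1, h2⟩ := pol_inj h
        exact absurd h2.symm (ha0' i')
      · obtain ⟨h1, h2⟩ := pol_inj h
        exact absurd h2 (ha0' i)
      · rw [(pol_inj h).1]
  obtain ⟨f, hfw, hf⟩ := hPW (J ⊕ (Fin n ⊕ Fin n)) w hwCM hwIso
  -- a coefficient
  let a0 : Fin n → k0 := fun i => ⟨a i, hak0 i⟩
  have hexp : ∀ g, aeval w g = 0 ↔ ∀ α, aeval x (coeff α (th k0 J a0 g)) = 0 := fun g =>
    w_iff hk0Kx J a0 x hxKx lam hlam g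
  obtain ⟨α, hα⟩ : ∃ α, aeval x (coeff α (th k0 J a0 f)) ≠ 0 := by
    by_contra hall
    push Not at hall
    exact hfw ((hexp f).2 hall)
  refine ⟨MvPolynomial.map (algebraMap k0 ℂ) (coeff α (th k0 J a0 f)),
    fun h => hα ((hx _).2 h), ?_⟩
  -- dimension of `R`
  obtain ⟨I, -, -, hI⟩ := t_co k0 ℂ σ x
  have hdimR : ∀ m, DimGe R m ↔ m ≤ I.card := fun m => (hxd m).symm.trans (hI m)
  have hdimP : DimGe P (I.card + TJ.card) := by
    by_contra hcon
    exact hRA ⟨hR, hPR, I.card, TJ, (hdimR _).2 le_rfl, (gen_rel hxG TJ).1 hTJr, hcon⟩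
  obtain ⟨s, hs⟩ := hTA (Fin n) a
  have hnot : ¬ TrGe Qb w (I.card + 1 + s) := by
    rw [hw, ← hs σ x J lam hlam (halg hCMA hALG x J hJ3)]
    intro h
    have := (hI _).1 h
    omega
  -- the atypical ideal
  rintro Q ⟨hQ, hPQ, m', T, hm', hT, hPd⟩ hRQ
  obtain ⟨n', aQ, -, haQDef⟩ := hDEF σ Q
  set k1 : IntermediateField Qb ℂ := IntermediateField.adjoin Qb (Set.range a ∪ Set.range aQ)
    with hk1
  have hk1c : (k1 : Set ℂ).Countable := hIND.1 _ ((Set.countable_range a).union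
    (Set.countable_range aQ))
  have haQk1 : ∀ i, aQ i ∈ k1 := fun i => IntermediateField.subset_adjoin _ _ (Or.inr ⟨i, rfl⟩)
  have hk01 : k0 ≤ k1 := by
    rw [hk0, IntermediateField.adjoin_le_iff]
    rintro _ ⟨i, rfl⟩
    exact IntermediateField.subset_adjoin _ _ (Or.inl ⟨i, rfl⟩)
  obtain ⟨x', hx', hx'd⟩ := hGEN σ Q hQ k1 hk1c (haQDef k1 haQk1)
  have hx'G1 : Gen k1 Q x' := hx'
  have hx'G : Gen k0 Q x' := gen_le hk01 hx'G1
  set Kx' : IntermediateField Qb ℂ := IntermediateField.adjoin Qb (Set.range x' ∪ Set.range a)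
    with hKx'
  have hKx'c : (Kx' : Set ℂ).Countable := hIND.1 _ ((Set.countable_range x').union
    (Set.countable_range a))
  obtain ⟨lam', hlam'⟩ := hIND.2 Kx' hKx'c (Fin n)
  have hxKx' : ∀ i, x' i ∈ Kx' := fun i => IntermediateField.subset_adjoin _ _ (Or.inl ⟨i, rfl⟩)
  have hk0Kx' : k0 ≤ Kx' := by
    rw [hk0, IntermediateField.adjoin_le_iff]
    rintro _ ⟨i, rfl⟩
    exact IntermediateField.subset_adjoin _ _ (Or.inr ⟨i, rfl⟩)
  set w' : (J ⊕ (Fin n ⊕ Fin n)) → ℂ := wt x' J lam' a with hw'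
  have hexp' : ∀ g, aeval w' g = 0 ↔ ∀ α, aeval x' (coeff α (th k0 J a0 g)) = 0 := fun g =>
    w_iff hk0Kx' J a0 x' hxKx' lam' hlam' g
  have hspec : ∀ g : MvPolynomial (J ⊕ (Fin n ⊕ Fin n)) Qb, aeval w g = 0 → aeval w' g = 0 := by
    intro g hg
    rw [hexp' g]
    intro β
    exact (hx'G _).2 (hRQ ((hxG _).1 ((hexp g).1 hg β)))
  -- the coordinates outside `J`
  have hJ3' : ∀ i, i ∉ J → CMv (x' i) ∨ ∃ j ∈ J, Iso (x' i) (x' j) := by
    have h1 : RelT x' TJ := (gen_rel hx'G TJ).2 (relI_mono hRQ ((gen_rel hxG TJ).1 hTJr))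
    have h2 := (hX1 σ x' TJ).1 h1
    intro i hi
    rcases h2 i ((hTJ i).2 hi) with h3 | ⟨u, hu, h3⟩
    · exact Or.inl h3
    · refine Or.inr ⟨u, ?_, h3⟩
      by_contra hu'
      exact hu ((hTJ u).2 hu')
  obtain ⟨T', hT', hTc⟩ := (hX2 σ x').2 J hJ3' T ((gen_rel hx'G1 T).2 hT)
  -- dimensions
  have hlt : I.card + TJ.card < m' + T.card := by
    by_contra hcon
    exact hPd (dimGe_mono (not_lt.1 hcon) hdimP)
  have htr : TrGe Qb w' (m' + s) := by
    rw [hw', ← hs σ x' J lam' hlam' (halg hCMA hALG x' J hJ3')]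
    exact trge_le hk01 x' m' ((hx'd m').2 hm')
  have hrel : RelT w' (T'.map Function.Embedding.inl) := by
    intro t ht
    rw [Finset.mem_map] at ht
    obtain ⟨j, hj, rfl⟩ := ht
    rcases hT' j hj with ⟨c, h1, h2⟩ | ⟨u, hu, F, h1, h2⟩
    · exact Or.inl ⟨c, h1, h2⟩
    · refine Or.inr ⟨Sum.inl u, ?_, F, h1, h2⟩
      intro h
      rw [Finset.mem_map] at h
      obtain ⟨u', hu', h3⟩ := h
      have : u' = u := Sum.inl_injective h3
      exact hu (this ▸ hu')
  have h0 := hf w' hspec (I.card + 1 + s) (m' + s) (T'.map Function.Embedding.inl) hnot htr hrel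
    (by rw [Finset.card_map]; omega)
  exact (hx'G _).1 ((hexp' f).1 h0 α)

end Pool.Agent.W724.YP.SB

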